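import Mathlib
import Pool.Agent.R849.SV.Core

/-!
# Product sets of random integers: the entropy inequality
-/

set_option autoImplicit false

namespace Pool.Agent.L5helper30.HC

open Finset Pool.Agent.Y359.PE Pool.Agent.R849.SV
open scoped Classical

lemma parts_empty' (A : Finset ℤ) : (parts ∅ A).card ≤ 1 := by
  refine card_le_one.2 ?_
  intro x hx y hy
  obtain ⟨a, -, rfl⟩ := mem_image.1 hx
  obtain ⟨b, -, rfl⟩ := mem_image.1 hy
  simp

lemma h_le_log' {α β : Type*} [DecidableEq β] {S : Finset α} (hS : S.Nonempty) (f : α → β) :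
    h S f ≤ Real.log (S.image f).card := by
  have h1 := h_le_log hS f
  have e : @Finset.image α β (fun a b => Classical.propDecidable (a = b)) f S = S.image f := by
    ext x
    simp only [mem_image]
  rwa [e] at h1

/-- **The entropy inequality.** -/
theorem coreF {α : Type} (S : Finset α) (hS : S.Nonempty) (F : α → ℤ) (h0 : ∀ s ∈ S, F s ≠ 0)
    (e : ℕ → ℕ) (m k : ℕ) (hk : 1 ≤ k) {L γ : ℝ} (hL : 1 < L) (hl : 5 < Real.log L) (hγ : γ ≤ 1)
    (hLγ : k * (4 + k) / Real.log L ≤ γ)
    (hT : ∀ p, p.Prime →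
      L * ((S.filter fun s => m ≤ p ^ ((fa (F s) p : ℤ) - e p).natAbs).card : ℝ) ≤ S.card) :
    (1 - γ) * k * (h S F - Real.log (2 * (2 * m + 1) ^ m)) ≤
      Real.log ((pk k (S.image F)).card * (2 * (k * m) + 1) ^ m) := by
  have hkr : (1 : ℝ) ≤ k := by exact_mod_cast hk
  obtain ⟨p1, p2, p3⟩ := params hL hl (show (0 : ℝ) ≤ k by positivity)
  have hL0 : 0 < L := by linarith
  have hl0 : 0 < Real.log L := by linarith
  set κ := 2 / Real.log (1 / (1 / Real.sqrt L)) + k * (1 / L) / (1 / Real.sqrt L) with hκ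
  have hκk : k * κ ≤ γ := by
    have h1 := mul_le_mul_of_nonneg_left p3 (show (0 : ℝ) ≤ k by positivity)
    rw [← mul_div_assoc] at h1
    exact h1.trans hLγ
  have hκ0 : 0 ≤ κ := by
    have h3 : 0 < Real.log (1 / (1 / Real.sqrt L)) := by
      rw [one_div_one_div, Real.log_sqrt hL0.le]
      linarith
    positivity
  have hκ1 : κ ≤ 1 := by nlinarith
  set A := S.image F with hAd
  have hA0 : (0 : ℤ) ∉ A := by
    intro h
    obtain ⟨s, hs, hs2⟩ := mem_image.1 h
    exact h0 s hs hs2
  have hA : A.Nonempty := hS.image F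
  set T := pr A with hTd
  obtain ⟨β, B, Y, hB, h1, -, h3⟩ := kcopies S hS (fun s => Yv m e (F s)) (τ := 1 / L)
    (θ := 1 / Real.sqrt L) (by positivity) (by positivity) p2 k hκ1 T (fun p hp => by
      have h4 := hT p (prime_of_mem_pr hp)
      have h5 : nz S (fun s => Yv m e (F s) p) ≤
          (S.filter fun s => m ≤ p ^ ((fa (F s) p : ℤ) - e p).natAbs).card := by
        rw [nz_eq S (fun s => Yv m e (F s) p) (S.filter fun s => Yv m e (F s) p ≠ 0) (fun a => by
          rw [mem_filter])]
        refine card_le_card fun a ha => ?_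
        rw [mem_filter] at ha ⊢
        refine ⟨ha.1, ?_⟩
        by_contra h
        exact ha.2 (if_neg h)
      have h6 : (nz S (fun s => Yv m e (F s) p) : ℝ) ≤
          ((S.filter fun s => m ≤ p ^ ((fa (F s) p : ℤ) - e p).natAbs).card : ℝ) := by
        exact_mod_cast h5
      rw [one_div, ← div_eq_inv_mul, le_div_iff₀ hL0]
      nlinarith) k hk le_rfl
  have e1 : (1 - 2 / Real.log (1 / (1 / Real.sqrt L)) - k * (1 / L) / (1 / Real.sqrt L)) =
      1 - κ := by
    rw [hκ]
    ring
  rw [e1] at h3
  have hbern : 1 - (k : ℝ) * κ ≤ (1 - κ) ^ (k - 1) := by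
    have h1 := one_add_mul_le_pow (show (-2 : ℝ) ≤ -κ by linarith) (k - 1)
    have h2 : ((k - 1 : ℕ) : ℝ) ≤ k := by exact_mod_cast Nat.sub_le _ _
    have h3 : 1 - (k : ℝ) * κ ≤ 1 + ((k - 1 : ℕ) : ℝ) * (-κ) := by nlinarith
    rw [sub_eq_add_neg 1 κ]
    exact h3.trans h1
  set G : α → ℕ → ℤ := mk T (fun s => Yv m e (F s)) with hG
  have hH0 : 0 ≤ h S G := h_nonneg _ _
  have h4 : 1 - γ ≤ (1 - κ) ^ (k - 1) := by linarith
  have h5 : (1 - γ) * k * h S G ≤ h B (mk T Y) := by
    refine le_trans ?_ h3
    gcongr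
  -- the lower bound for the entropy
  have hN0 : (0 : ℝ) < S.card := by exact_mod_cast card_pos.2 hS
  have hlow : h S F - Real.log (2 * (2 * m + 1) ^ m) ≤ h S G := by
    have c1 : h S F = h S (fun s => (G s, F s)) := by
      refine h_congr fun x _ y _ => ?_
      rw [Prod.mk.injEq]
      refine ⟨fun hxy => ⟨?_, hxy⟩, fun hxy => hxy.2⟩
      rw [hG]
      funext p
      simp only [Pool.Agent.Y359.PE.mk, hxy]
    have c2 := chain S G F
    have c3 : ∀ x ∈ S, h (cl S G x) F ≤ Real.log (2 * (2 * m + 1) ^ m) := by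
      intro x hx
      have hne : (cl S G x).Nonempty := ⟨x, mem_cl.2 ⟨hx, rfl⟩⟩
      have hpos : (0 : ℝ) < ((cl S G x).image F).card := by
        exact_mod_cast card_pos.2 (hne.image F)
      have d1 : (cl S G x).image F ⊆ cl A (mk (pr A \ ∅) (Yv m e)) (F x) := by
        intro v hv
        obtain ⟨y, hy, rfl⟩ := mem_image.1 hv
        rw [mem_cl] at hy
        rw [mem_cl, sdiff_empty]
        exact ⟨mem_image_of_mem F hy.1, hy.2⟩
      have d2 := (card_le_card d1).trans (fc_le_core A hA0 ∅ m e (F x))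
      have d3 := d2.trans (Nat.mul_le_mul_left _ (parts_empty' A))
      rw [mul_one] at d3
      have d4 : (((cl S G x).image F).card : ℝ) ≤ 2 * (2 * m + 1) ^ m := by exact_mod_cast d3
      exact (h_le_log' hne F).trans (Real.log_le_log hpos d4)
    have c4 : (∑ x ∈ S, h (cl S G x) F) / S.card ≤ Real.log (2 * (2 * m + 1) ^ m) := by
      rw [div_le_iff₀ hN0]
      refine (sum_le_sum c3).trans (le_of_eq ?_)
      rw [sum_const, nsmul_eq_mul]
      ring
    rw [← c2] at c4
    rw [c1]
    linarith
  -- the upper bound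
  have : Nonempty α := ⟨hS.choose⟩
  choose! f hf1 hf2 using h1
  let GG : ℤ × (Fin m → ℤ) → ℕ → ℤ := fun s p =>
    if p ∈ T then ((fa s.1 p : ℤ) - k * e p) - (if h : p < m then s.2 ⟨p, h⟩ else 0) else 0
  have himg : B.image (mk T Y) ⊆ (pk k A ×ˢ
      (Fintype.piFinset fun _ : Fin m => Icc (-((k * m : ℕ) : ℤ)) (k * m : ℕ))).image GG := by
    intro v hv
    obtain ⟨b, hb, rfl⟩ := mem_image.1 hv
    have hne : ∀ i, F (f b i) ≠ 0 := fun i => h0 _ (hf1 b hb i)
    refine mem_image.2 ⟨(∏ i, F (f b i), fun j : Fin m =>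
      if (j : ℕ) ∈ T then ∑ i, (X e (F (f b i)) j - Yv m e (F (f b i)) j) else 0), ?_, ?_⟩
    · rw [mem_product]
      refine ⟨mem_image.2 ⟨fun i => F (f b i), Fintype.mem_piFinset.2
        fun i => mem_image_of_mem F (hf1 b hb i), rfl⟩, ?_⟩
      rw [Fintype.mem_piFinset]
      intro j
      dsimp only
      split_ifs with hj
      · have hj2 := (prime_of_mem_pr hj).two_le
        have hb1 : ∀ i, X e (F (f b i)) j - Yv m e (F (f b i)) j ∈ Icc (-(m : ℤ)) m := fun i =>
          cut_small hj2 _
        rw [mem_Icc]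
        constructor
        · have := sum_le_sum fun i (_ : i ∈ (univ : Finset (Fin k))) => (mem_Icc.1 (hb1 i)).1
          rw [sum_const, card_univ, Fintype.card_fin, nsmul_eq_mul] at this
          push_cast
          linarith
        · have := sum_le_sum fun i (_ : i ∈ (univ : Finset (Fin k))) => (mem_Icc.1 (hb1 i)).2
          rw [sum_const, card_univ, Fintype.card_fin, nsmul_eq_mul] at this
          push_cast
          linarith
      · rw [mem_Icc]
        constructor
        · simp
          positivity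
        · positivity
    · funext p
      show (if p ∈ T then _ else _) = mk T Y b p
      unfold Pool.Agent.Y359.PE.mk
      by_cases hp : p ∈ T
      · rw [if_pos hp, if_pos hp]
        have hfa : (fa (∏ i, F (f b i)) p : ℤ) - k * e p = ∑ i, X e (F (f b i)) p := by
          rw [fa_prod (fun i => F (f b i)) hne]
          unfold X
          rw [sum_sub_distrib, sum_const, card_univ, Fintype.card_fin]
          push_cast
          simp
        have hYb : Y b p = ∑ i, Yv m e (F (f b i)) p := by
          rw [hf2 b hb, Finset.sum_apply]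
        dsimp only
        rw [hfa, hYb]
        by_cases hpm : p < m
        · rw [dif_pos hpm]
          simp only [hp, if_true]
          rw [sum_sub_distrib]
          ring
        · rw [dif_neg hpm, sub_zero]
          have hp1 : 1 ≤ p := (prime_of_mem_pr hp).one_le
          refine sum_congr rfl fun i _ => ?_
          unfold Yv
          rw [cut_large (not_lt.1 hpm) hp1]
      · rw [if_neg hp, if_neg hp]
  have hcard : (B.image (mk T Y)).card ≤ (pk k A).card * (2 * (k * m) + 1) ^ m := by
    refine (card_le_card himg).trans (card_image_le.trans (le_of_eq ?_))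
    rw [card_product, Fintype.card_piFinset, prod_const, card_univ, Fintype.card_fin,
      Int.card_Icc]
    have : (((k * m : ℕ) : ℤ) + 1 - -((k * m : ℕ) : ℤ)).toNat = 2 * (k * m) + 1 := by omega
    rw [this]
  have hpos : (0 : ℝ) < (B.image (mk T Y)).card := by
    exact_mod_cast card_pos.2 (hB.image _)
  have h6 : Real.log ((B.image (mk T Y)).card : ℝ) ≤
      Real.log ((pk k A).card * (2 * (k * m) + 1) ^ m) :=
    Real.log_le_log hpos (by exact_mod_cast hcard)
  refine le_trans ?_ (h5.trans ((h_le_log hB _).trans h6))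
  have h7 : 0 ≤ (1 - γ) * k := mul_nonneg (by linarith) (by linarith)
  exact mul_le_mul_of_nonneg_left hlow h7

end Pool.Agent.L5helper30.HC
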