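import Mathlib
import Pool.Agent.L5helper30.HC.Core

/-!
# Products of random integers no large prime power often divides
-/

set_option autoImplicit false

namespace Pool.Agent.L5helper30.HC

open Finset Pool.Agent.Y359.PE Pool.Agent.R849.SV
open scoped Classical

/-- the number of the pairs with the same value -/
noncomputable def coll {α : Type} (S : Finset α) (F : α → ℤ) : ℕ :=
  ((S ×ˢ S).filter fun x => F x.1 = F x.2).card

lemma coll_eq {α : Type} (S : Finset α) (F : α → ℤ) : coll S F = ∑ x ∈ S, fc S F x := by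
  unfold coll fc cl
  rw [Finset.card_filter, Finset.sum_product_right]
  refine sum_congr rfl fun x _ => ?_
  rw [Finset.card_filter]
  refine sum_congr rfl fun y _ => ?_
  congr

lemma coll_pos {α : Type} {S : Finset α} (hS : S.Nonempty) (F : α → ℤ) : 0 < coll S F := by
  obtain ⟨x, hx⟩ := hS
  exact card_pos.2 ⟨(x, x), mem_filter.2 ⟨mk_mem_product hx hx, rfl⟩⟩

/-- the collision entropy is at most the entropy -/
lemma h_ge_coll {α : Type} (S : Finset α) (hS : S.Nonempty) (F : α → ℤ) :
    Real.log ((S.card : ℝ) ^ 2 / coll S F) ≤ h S F := by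
  have hN : (0 : ℝ) < S.card := by exact_mod_cast card_pos.2 hS
  have hE : (0 : ℝ) < coll S F := by exact_mod_cast coll_pos hS F
  have h1 : ∀ x ∈ S, Real.log (fc S F x) ≤ (fc S F x : ℝ) * (S.card / coll S F) - 1 -
      Real.log (S.card / coll S F) := by
    intro x hx
    have h2 := fc_posR (f := F) hx
    have h3 := Real.log_le_sub_one_of_pos (mul_pos h2 (div_pos hN hE))
    rw [Real.log_mul h2.ne' (div_pos hN hE).ne'] at h3
    linarith
  have h2 := sum_le_sum h1
  rw [sum_sub_distrib, sum_sub_distrib, ← sum_mul, sum_const, sum_const, nsmul_eq_mul,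
    nsmul_eq_mul, mul_one] at h2
  have h3 : (∑ x ∈ S, (fc S F x : ℝ)) = coll S F := by
    rw [coll_eq]
    push_cast
    rfl
  rw [h3] at h2
  have h4 : (coll S F : ℝ) * (S.card / coll S F) = S.card := by
    field_simp
  rw [h4] at h2
  unfold h
  rw [le_div_iff₀ hN, sum_sub_distrib, sum_const, nsmul_eq_mul]
  have h5 : Real.log ((S.card : ℝ) ^ 2 / coll S F) =
      Real.log S.card + Real.log (S.card / coll S F) := by
    rw [← Real.log_mul hN.ne' (div_pos hN hE).ne']
    congr 1
    ring
  rw [h5]
  linarith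

/-- **Products of random integers.** -/
theorem general (k : ℕ) (hk : 1 ≤ k) (ε : ℝ) (hε : 0 < ε) (hε1 : ε ≤ 1) :
    ∃ δ : ℝ, 0 < δ ∧ ∀ m : ℕ, ∃ c : ℝ, 0 < c ∧ ∀ (α : Type) (S : Finset α) (F : α → ℤ),
      S.Nonempty →
      (∀ p : ℕ, p.Prime → ∀ v : ℕ, m ≤ p ^ v →
        ((S.filter fun s => ((p ^ v : ℕ) : ℤ) ∣ F s).card : ℝ) ≤ δ * S.card) →
      c * ((S.card : ℝ) ^ 2 / coll S F) ^ ((k : ℝ) - ε) ≤ (pk k (S.image F)).card := by
  have hkr : (1 : ℝ) ≤ k := by exact_mod_cast hk
  set γ : ℝ := ε / k with hγ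
  have hγ0 : 0 < γ := by positivity
  have hγ1 : γ ≤ 1 := by
    rw [hγ, div_le_one (by linarith)]
    linarith
  set u : ℝ := k * (4 + k) / γ with hu
  have hu0 : 0 ≤ u := by positivity
  set L : ℝ := Real.exp (6 + u) with hL
  have hlog : Real.log L = 6 + u := by rw [hL, Real.log_exp]
  have hL1 : 1 < L := by
    rw [hL]
    exact Real.one_lt_exp_iff.2 (by linarith)
  have hL0 : 0 < L := by linarith
  refine ⟨1 / (2 * L), by positivity, fun m => ?_⟩
  set F0 : ℝ := 2 * (2 * m + 1) ^ m with hF0
  set F1 : ℝ := (2 * (k * m) + 1) ^ m with hF1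
  have hF00 : 0 < F0 := by positivity
  have hF10 : 0 < F1 := by positivity
  have hke : 0 ≤ (k : ℝ) - ε := by linarith
  refine ⟨1 / ((4 * F0) ^ ((k : ℝ) - ε) * F1), by positivity, fun α S F hS hT => ?_⟩
  have hN : (0 : ℝ) < S.card := by exact_mod_cast card_pos.2 hS
  -- remove the zeros
  set S' := S.filter fun s => F s ≠ 0 with hS'
  have hz : ((S.filter fun s => F s = 0).card : ℝ) ≤ 1 / 2 * S.card := by
    have h1 := hT 2 Nat.prime_two m (Nat.lt_two_pow_self).le
    have h2 : ((S.filter fun s => F s = 0).card : ℝ) ≤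
        ((S.filter fun s => ((2 ^ m : ℕ) : ℤ) ∣ F s).card : ℝ) := by
      have : (S.filter fun s => F s = 0).card ≤
          (S.filter fun s => ((2 ^ m : ℕ) : ℤ) ∣ F s).card := by
        refine card_le_card fun s hs => ?_
        rw [mem_filter] at hs ⊢
        refine ⟨hs.1, ?_⟩
        rw [hs.2]
        exact dvd_zero _
      exact_mod_cast this
    refine h2.trans (h1.trans ?_)
    refine mul_le_mul_of_nonneg_right ?_ hN.le
    exact one_div_le_one_div_of_le (by norm_num) (by linarith)
  have hsplit : ((S.filter fun s => F s = 0).card : ℝ) + S'.card = S.card := by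
    have := Finset.card_filter_add_card_filter_not (s := S) (fun s => F s = 0)
    rw [hS']
    exact_mod_cast this
  have hN2 : (S.card : ℝ) / 2 ≤ S'.card := by linarith
  have hN' : (0 : ℝ) < S'.card := by linarith
  have hS'ne : S'.Nonempty := by
    rw [← card_pos]
    exact_mod_cast hN'
  have h1 := coreF S' hS'ne F (fun s hs => (mem_filter.1 hs).2) (fun _ => 0) m k hk hL1
    (by rw [hlog]; linarith) hγ1 (by
    rw [hlog, div_le_iff₀ (by linarith)]
    have h2 : k * (4 + k) = γ * u := by
      rw [hu]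
      field_simp
    rw [h2]
    nlinarith) (fun p hp => by
      have h3 := hT p hp (Nat.clog p m) (Nat.le_pow_clog hp.one_lt m)
      have h4 : ((S'.filter fun s => m ≤ p ^ ((fa (F s) p : ℤ) - ((0 : ℕ) : ℤ)).natAbs).card : ℝ) ≤
          ((S.filter fun s => ((p ^ Nat.clog p m : ℕ) : ℤ) ∣ F s).card : ℝ) := by
        have : (S'.filter fun s => m ≤ p ^ ((fa (F s) p : ℤ) - ((0 : ℕ) : ℤ)).natAbs).card ≤
            (S.filter fun s => ((p ^ Nat.clog p m : ℕ) : ℤ) ∣ F s).card := by
          refine card_le_card fun s hs => ?_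
          rw [mem_filter] at hs ⊢
          obtain ⟨hs1, hs2⟩ := hs
          rw [hS', mem_filter] at hs1
          refine ⟨hs1.1, ?_⟩
          rw [Nat.cast_zero, sub_zero, Int.natAbs_natCast] at hs2
          rw [← le_fa_iff hs1.2 hp]
          exact Nat.clog_le_of_le_pow hs2
        exact_mod_cast this
      have h5 : 1 / (2 * L) * (S.card : ℝ) ≤ 1 / L * S'.card := by
        calc 1 / (2 * L) * (S.card : ℝ) = 1 / L * (S.card / 2) := by
              field_simp
          _ ≤ _ := mul_le_mul_of_nonneg_left hN2 (by positivity)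
      have h6 := h4.trans (h3.trans h5)
      calc L * _ ≤ L * (1 / L * (S'.card : ℝ)) := mul_le_mul_of_nonneg_left h6 hL0.le
        _ = S'.card := by field_simp)
  have e1 : (1 - γ) * k = (k : ℝ) - ε := by
    rw [hγ]
    field_simp
  have hE : (0 : ℝ) < coll S F := by exact_mod_cast coll_pos hS F
  have hE' : (0 : ℝ) < coll S' F := by exact_mod_cast coll_pos hS'ne F
  have hEE : (coll S' F : ℝ) ≤ coll S F := by
    have : coll S' F ≤ coll S F := by
      unfold coll
      exact card_le_card (filter_subset_filter _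
        (product_subset_product (filter_subset _ _) (filter_subset _ _)))
    exact_mod_cast this
  have h2 := h_ge_coll S' hS'ne F
  have h3 : Real.log ((S.card : ℝ) ^ 2 / coll S F / (4 * F0)) ≤ h S' F - Real.log F0 := by
    have c1 : (S.card : ℝ) ^ 2 / coll S F / (4 * F0) ≤ (S'.card : ℝ) ^ 2 / coll S' F / F0 := by
      have c2 : (S.card : ℝ) ^ 2 / 4 ≤ (S'.card : ℝ) ^ 2 := by nlinarith
      calc (S.card : ℝ) ^ 2 / coll S F / (4 * F0) = (S.card : ℝ) ^ 2 / 4 / coll S F / F0 := by
            field_simp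
        _ ≤ (S'.card : ℝ) ^ 2 / coll S' F / F0 := by
            refine div_le_div_of_nonneg_right ?_ hF00.le
            exact div_le_div₀ (by positivity) c2 hE' hEE
    have c3 : Real.log ((S'.card : ℝ) ^ 2 / coll S' F / F0) =
        Real.log ((S'.card : ℝ) ^ 2 / coll S' F) - Real.log F0 := by
      rw [Real.log_div (by positivity) hF00.ne']
    have c4 := Real.log_le_log (by positivity) c1
    rw [c3] at c4
    linarith
  have hPk : (0 : ℝ) < (pk k (S'.image F)).card := by
    exact_mod_cast card_pos.2 (pk_nonempty (hS'ne.image F))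
  have h4 : ((k : ℝ) - ε) * Real.log ((S.card : ℝ) ^ 2 / coll S F / (4 * F0)) ≤
      Real.log ((pk k (S'.image F)).card * F1) := by
    refine le_trans ?_ h1
    rw [e1]
    exact mul_le_mul_of_nonneg_left h3 hke
  rw [← Real.log_rpow (by positivity)] at h4
  have h5 := (Real.log_le_log_iff (by positivity) (by positivity)).1 h4
  rw [Real.div_rpow (by positivity) (by positivity), div_le_iff₀ (by positivity)] at h5
  have h6 : ((pk k (S'.image F)).card : ℝ) ≤ (pk k (S.image F)).card := by
    exact_mod_cast card_le_card (pk_mono (image_subset_image (filter_subset _ _)))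
  refine le_trans ?_ h6
  rw [div_mul_eq_mul_div, one_mul, div_le_iff₀ (by positivity)]
  refine h5.trans (le_of_eq ?_)
  ring

end Pool.Agent.L5helper30.HC
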