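import Mathlib

/-!
# An exponential sum over residues
-/

set_option autoImplicit false

namespace Pool.Agent.L5helper30.HC

open Finset

/-- telescoping -/
lemma tele {α : ℝ} (hα : 0 < α) (n : ℕ) :
    ∑ a ∈ range n, 1 / (1 + α ^ 2 * ((a : ℝ) + 1) ^ 2) ≤ 2 / α * (1 - 1 / (1 + α * n)) := by
  induction n with
  | zero => simp
  | succ n ih =>
    rw [sum_range_succ]
    have hn : (0 : ℝ) ≤ n := Nat.cast_nonneg n
    have h1 : 0 < 1 + α * n := by positivity
    have h2 : 0 < 1 + α * ((n : ℝ) + 1) := by positivity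
    have h3 : 0 < 1 + α ^ 2 * ((n : ℝ) + 1) ^ 2 := by positivity
    have key : 1 / (1 + α ^ 2 * ((n : ℝ) + 1) ^ 2) ≤
        2 / α * (1 / (1 + α * n) - 1 / (1 + α * ((n : ℝ) + 1))) := by
      have e1 : 2 / α * (1 / (1 + α * n) - 1 / (1 + α * ((n : ℝ) + 1))) =
          2 / ((1 + α * n) * (1 + α * ((n : ℝ) + 1))) := by
        field_simp
        ring
      rw [e1, div_le_div_iff₀ h3 (by positivity)]
      nlinarith [sq_nonneg (1 - α * ((n : ℝ) + 1)), mul_nonneg hα.le hn]
    push_cast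
    calc _ ≤ 2 / α * (1 - 1 / (1 + α * n)) +
          2 / α * (1 / (1 + α * n) - 1 / (1 + α * ((n : ℝ) + 1))) := add_le_add ih key
      _ = 2 / α * (1 - 1 / (1 + α * ((n : ℝ) + 1))) := by ring

lemma tele' {α : ℝ} (hα : 0 < α) (n : ℕ) :
    ∑ a ∈ range n, 1 / (1 + α ^ 2 * ((a : ℝ) + 1) ^ 2) ≤ 2 / α := by
  refine (tele hα n).trans ?_
  have h1 : (0 : ℝ) ≤ 1 / (1 + α * n) := by positivity
  have h2 : (0 : ℝ) ≤ 2 / α := by positivity
  nlinarith

/-- the exponential sum -/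
lemma expsum {Λ : ℝ} (hΛ : 0 < Λ) (N : ℕ) (hN : 1 ≤ N) :
    ∑ a ∈ range N, Real.exp (-(Λ / 2) * (1 - Real.cos (2 * Real.pi * a / N))) ≤
      1 + 2 * N / Real.sqrt Λ := by
  have hNr : (0 : ℝ) < N := by exact_mod_cast hN
  have hs : 0 < Real.sqrt Λ := Real.sqrt_pos.2 hΛ
  set α : ℝ := 2 * Real.sqrt Λ / N with hα
  have hα0 : 0 < α := by positivity
  have hα2 : α ^ 2 = 4 * Λ / N ^ 2 := by
    rw [hα, div_pow, mul_pow, Real.sq_sqrt hΛ.le]
    ring
  let φ : ℝ → ℝ := fun x => 1 / (1 + α ^ 2 * x ^ 2)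
  have hφ0 : ∀ x, 0 ≤ φ x := fun x => by
    have : 0 < 1 + α ^ 2 * x ^ 2 := by positivity
    exact div_nonneg zero_le_one this.le
  -- a bound for one term
  have key : ∀ x : ℝ, 0 ≤ x → x ≤ N / 2 →
      Real.exp (-Λ * Real.sin (Real.pi * x / N) ^ 2) ≤ φ x := by
    intro x hx0 hx
    have h1 : 2 * x / N ≤ Real.sin (Real.pi * x / N) := by
      have h2 := Real.mul_le_sin (x := Real.pi * x / N) (by positivity) (by
        rw [div_le_div_iff₀ hNr two_pos]
        nlinarith [Real.pi_pos])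
      refine le_trans (le_of_eq ?_) h2
      field_simp
    have h3 : (2 * x / N) ^ 2 ≤ Real.sin (Real.pi * x / N) ^ 2 :=
      pow_le_pow_left₀ (by positivity) h1 2
    have h4 : α ^ 2 * x ^ 2 ≤ Λ * Real.sin (Real.pi * x / N) ^ 2 := by
      calc α ^ 2 * x ^ 2 = Λ * (2 * x / N) ^ 2 := by
            rw [hα2]
            field_simp
            ring
        _ ≤ _ := mul_le_mul_of_nonneg_left h3 hΛ.le
    have h5 : 1 + α ^ 2 * x ^ 2 ≤ Real.exp (Λ * Real.sin (Real.pi * x / N) ^ 2) := by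
      have := Real.add_one_le_exp (Λ * Real.sin (Real.pi * x / N) ^ 2)
      linarith
    have h6 : 0 < 1 + α ^ 2 * x ^ 2 := by positivity
    show _ ≤ 1 / (1 + α ^ 2 * x ^ 2)
    rw [neg_mul, Real.exp_neg, ← one_div]
    exact one_div_le_one_div_of_le h6 h5
  have hterm : ∀ a ∈ range N, Real.exp (-(Λ / 2) * (1 - Real.cos (2 * Real.pi * a / N))) ≤
      φ a + φ (N - a) := by
    intro a ha
    rw [mem_range] at ha
    have haN : (a : ℝ) ≤ N := by exact_mod_cast ha.le
    have ha0 : (0 : ℝ) ≤ a := Nat.cast_nonneg a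
    have e1 : -(Λ / 2) * (1 - Real.cos (2 * Real.pi * a / N)) =
        -Λ * Real.sin (Real.pi * a / N) ^ 2 := by
      have : 2 * Real.pi * a / N = 2 * (Real.pi * a / N) := by ring
      rw [this, Real.cos_two_mul, Real.cos_sq']
      ring
    rw [e1]
    rcases le_total ((a : ℝ)) (N / 2) with h | h
    · exact (key a ha0 h).trans (by linarith [hφ0 (N - a)])
    · have h2 := key (N - a) (by linarith) (by linarith)
      have e2 : Real.sin (Real.pi * (N - a) / N) = Real.sin (Real.pi * a / N) := by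
        have : Real.pi * (N - a) / N = Real.pi - Real.pi * a / N := by
          field_simp
        rw [this, Real.sin_pi_sub]
      rw [e2] at h2
      exact h2.trans (by linarith [hφ0 (a : ℝ)])
  -- split off `a = 0`
  obtain ⟨n, rfl⟩ : ∃ n, N = n + 1 := ⟨N - 1, by omega⟩
  rw [sum_range_succ']
  have h0 : Real.exp (-(Λ / 2) * (1 - Real.cos (2 * Real.pi * ((0 : ℕ) : ℝ) / (n + 1 : ℕ)))) = 1 := by
    simp
  rw [h0]
  have h1 : ∑ a ∈ range n, Real.exp (-(Λ / 2) *
      (1 - Real.cos (2 * Real.pi * ((a + 1 : ℕ) : ℝ) / (n + 1 : ℕ)))) ≤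
      ∑ a ∈ range n, (φ ((a : ℝ) + 1) + φ ((n : ℝ) - a)) := by
    refine sum_le_sum fun a ha => ?_
    have := hterm (a + 1) (mem_range.2 (by have := mem_range.1 ha; omega))
    refine this.trans (le_of_eq ?_)
    push_cast
    congr 2
    ring
  have h2 : ∑ a ∈ range n, φ ((n : ℝ) - a) = ∑ a ∈ range n, φ ((a : ℝ) + 1) := by
    rw [← sum_range_reflect]
    refine sum_congr rfl fun a ha => ?_
    have : a + 1 ≤ n := mem_range.1 ha
    congr 1
    have h3 : ((n - 1 - a : ℕ) : ℝ) = n - 1 - a := by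
      rw [Nat.cast_sub (by omega), Nat.cast_sub (by omega)]
      simp
    rw [h3]
    ring
  have h3 := tele' hα0 n
  rw [sum_add_distrib, h2] at h1
  have h4 : ∑ a ∈ range n, φ ((a : ℝ) + 1) ≤ 2 / α := h3
  have h5 : 2 * ((n + 1 : ℕ) : ℝ) / Real.sqrt Λ = 2 * (2 / α) := by
    rw [hα]
    field_simp
  rw [h5]
  linarith

/-- periodic sums -/
lemma sum_periodic (f : ℕ → ℝ) (N : ℕ) (hf : ∀ a, f (a + N) = f a) (g : ℕ) :
    ∑ a ∈ range (N * g), f a = g * ∑ a ∈ range N, f a := by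
  induction g with
  | zero => simp
  | succ g ih =>
    rw [mul_add, mul_one, sum_range_add, ih]
    have h1 : ∀ j x, f (N * j + x) = f x := by
      intro j x
      induction j with
      | zero => simp
      | succ j ihj =>
        have : N * (j + 1) + x = (N * j + x) + N := by ring
        rw [this, hf, ihj]
    have h2 : ∑ x ∈ range N, f (N * g + x) = ∑ x ∈ range N, f x :=
      sum_congr rfl fun x _ => h1 g x
    rw [h2]
    push_cast
    ring

end Pool.Agent.L5helper30.HC
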