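import Pool.Agent.L5helper30.HC.LO1

/-!
# Sums of independent integers modulo prime powers
-/

set_option autoImplicit false

namespace Pool.Agent.L5helper30.HC

open Finset

/-- the real part of the standard character -/
noncomputable def cr (Q : ℕ) [NeZero Q] (x : ZMod Q) : ℝ := (ZMod.stdAddChar x).re

lemma cr_int (Q : ℕ) [NeZero Q] (j : ℤ) : cr Q (j : ZMod Q) = Real.cos (2 * Real.pi * j / Q) := by
  unfold cr
  rw [ZMod.stdAddChar_coe]
  have : (2 * Real.pi * Complex.I * j / Q : ℂ) = ((2 * Real.pi * j / Q : ℝ) : ℂ) * Complex.I := by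
    push_cast
    ring
  rw [this, Complex.exp_ofReal_mul_I_re]

lemma cr_le_one (Q : ℕ) [NeZero Q] (x : ZMod Q) : cr Q x ≤ 1 := by
  obtain ⟨j, rfl⟩ := ZMod.intCast_surjective x
  rw [cr_int]
  exact Real.cos_le_one _

/-- one generator -/
lemma single (p : ℕ) (hp : p.Prime) (t s : ℕ) (hts : t ≤ s) {Λ : ℝ} (hΛ : 0 < Λ) (y : ℤ)
    (hy : ¬ ((p ^ t : ℕ) : ℤ) ∣ y) [NeZero (p ^ s)] :
    ∑ ξ : ZMod (p ^ s), Real.exp (-(Λ / 2) * (1 - cr (p ^ s) (ξ * y))) ≤
      (p ^ s : ℕ) * (1 / (p : ℝ) ^ (s - t + 1) + 2 / Real.sqrt Λ) := by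
  have hp1 : (1 : ℝ) ≤ p := by exact_mod_cast hp.one_le
  have hp0 : (0 : ℝ) < p := by linarith
  have ht : 1 ≤ t := by
    by_contra h
    have : t = 0 := by omega
    rw [this] at hy
    simp at hy
  have hy0 : y ≠ 0 := by
    rintro rfl
    exact hy (dvd_zero _)
  -- the valuation
  obtain ⟨v, y', hy', hyv⟩ : ∃ v : ℕ, ∃ y' : ℤ, ¬ (p : ℤ) ∣ y' ∧ y = (p : ℤ) ^ v * y' := by
    have hf : FiniteMultiplicity (p : ℤ) y := by
      rw [Int.finiteMultiplicity_iff]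
      refine ⟨?_, hy0⟩
      simpa using hp.ne_one
    obtain ⟨y', h1, h2⟩ := hf.exists_eq_pow_mul_and_not_dvd
    exact ⟨_, y', h2, h1⟩
  have hvt : v < t := by
    by_contra h
    push Not at h
    apply hy
    rw [hyv]
    push_cast
    exact Dvd.dvd.mul_right (pow_dvd_pow _ h) _
  have hcop : IsCoprime y' ((p ^ s : ℕ) : ℤ) := by
    rw [Int.isCoprime_iff_gcd_eq_one]
    have h1 : Int.gcd y' ((p ^ s : ℕ) : ℤ) = Nat.gcd y'.natAbs (p ^ s) := by
      rw [Int.gcd_eq_natAbs]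
      rfl
    rw [h1]
    apply Nat.Coprime.pow_right
    rw [Nat.coprime_comm, hp.coprime_iff_not_dvd]
    intro h
    exact hy' (Int.natCast_dvd.2 h)
  have hu : IsUnit ((y' : ZMod (p ^ s))) := by
    rw [ZMod.coe_int_isUnit_iff_isCoprime]
    exact hcop.symm
  obtain ⟨u, hu⟩ := hu
  -- substitute
  have e1 : ∑ ξ : ZMod (p ^ s), Real.exp (-(Λ / 2) * (1 - cr (p ^ s) (ξ * y))) =
      ∑ ξ : ZMod (p ^ s), Real.exp (-(Λ / 2) * (1 - cr (p ^ s) (ξ * ((p : ℤ) ^ v : ℤ)))) := by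
    rw [← Equiv.sum_comp (Units.mulRight u)
      (fun ξ => Real.exp (-(Λ / 2) * (1 - cr (p ^ s) (ξ * ((p : ℤ) ^ v : ℤ)))))]
    refine sum_congr rfl fun ξ _ => ?_
    congr 4
    rw [Units.mulRight_apply, hu, hyv]
    push_cast
    ring
  rw [e1]
  set N := p ^ (s - v) with hN
  have hN0 : 0 < N := pow_pos hp.pos _
  have hNr : (0 : ℝ) < N := by exact_mod_cast hN0
  have hQ : p ^ s = N * p ^ v := by
    rw [hN, ← pow_add]
    congr 1
    omega
  let f : ℕ → ℝ := fun a => Real.exp (-(Λ / 2) * (1 - Real.cos (2 * Real.pi * a / N)))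
  have e2 : ∑ ξ : ZMod (p ^ s), Real.exp (-(Λ / 2) * (1 - cr (p ^ s) (ξ * ((p : ℤ) ^ v : ℤ)))) =
      ∑ a ∈ range (p ^ s), f a := by
    symm
    refine Finset.sum_bij' (fun (a : ℕ) _ => (a : ZMod (p ^ s))) (fun ξ _ => ξ.val)
      (fun _ _ => mem_univ _) (fun ξ _ => mem_range.2 (ZMod.val_lt ξ))
      (fun a ha => ZMod.val_cast_of_lt (mem_range.1 ha)) (fun ξ _ => ZMod.natCast_zmod_val ξ) ?_
    intro a ha
    show Real.exp _ = Real.exp _
    congr 3
    have h1 : (((a : ℕ) : ZMod (p ^ s)) * ((p : ℤ) ^ v : ℤ)) = (((a : ℤ) * (p : ℤ) ^ v : ℤ) :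
        ZMod (p ^ s)) := by
      push_cast
      ring
    rw [h1, cr_int]
    congr 1
    have h2 : ((p ^ s : ℕ) : ℝ) = N * (p : ℝ) ^ v := by
      rw [hQ]
      push_cast
      rfl
    rw [h2]
    push_cast
    field_simp
  rw [e2, hQ, sum_periodic f N (fun a => by
    show Real.exp _ = Real.exp _
    congr 3
    have h1 : 2 * Real.pi * ((a + N : ℕ) : ℝ) / N = 2 * Real.pi * a / N + 2 * Real.pi := by
      push_cast
      field_simp
    rw [h1, Real.cos_add_two_pi])]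
  have h1 := expsum hΛ N hN0
  have hpv : (0 : ℝ) < (p : ℝ) ^ v := by positivity
  have hs : 0 < Real.sqrt Λ := Real.sqrt_pos.2 hΛ
  have h2 : (1 : ℝ) / N ≤ 1 / (p : ℝ) ^ (s - t + 1) := by
    refine one_div_le_one_div_of_le (by positivity) ?_
    rw [hN]
    push_cast
    exact pow_le_pow_right₀ hp1 (by omega)
  calc ((p ^ v : ℕ) : ℝ) * ∑ a ∈ range N, f a ≤ (p ^ v : ℕ) * (1 + 2 * N / Real.sqrt Λ) :=
        mul_le_mul_of_nonneg_left h1 (by positivity)
    _ = (N * p ^ v : ℕ) * (1 / N + 2 / Real.sqrt Λ) := by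
        push_cast
        field_simp
    _ ≤ _ := by
        refine mul_le_mul_of_nonneg_left ?_ (by positivity)
        linarith

end Pool.Agent.L5helper30.HC
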