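import Pool.Agent.L5helper30.HC.LO2

/-!
# Sums of independent integers modulo prime powers: the bound
-/

set_option autoImplicit false

namespace Pool.Agent.L5helper30.HC

open Finset

/-- the square of the character sum -/
lemma norm_sq_sum (Q : ℕ) [NeZero Q] (B : Finset ℤ) (ξ : ZMod Q) :
    ‖∑ b ∈ B, ZMod.stdAddChar (ξ * (b : ZMod Q))‖ ^ 2 =
      ∑ x ∈ B ×ˢ B, cr Q (ξ * ((x.1 - x.2 : ℤ) : ZMod Q)) := by
  have h1 : ((‖∑ b ∈ B, ZMod.stdAddChar (ξ * (b : ZMod Q))‖ ^ 2 : ℝ) : ℂ) =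
      ∑ x ∈ B ×ˢ B, ZMod.stdAddChar (ξ * ((x.1 - x.2 : ℤ) : ZMod Q)) := by
    rw [Complex.ofReal_pow, ← Complex.mul_conj', map_sum, Finset.sum_mul_sum,
      ← Finset.sum_product']
    refine sum_congr rfl fun x _ => ?_
    rw [← AddChar.map_neg_eq_conj, ← AddChar.map_add_eq_mul]
    congr 1
    push_cast
    ring
  have h2 := congrArg Complex.re h1
  rw [Complex.ofReal_re, Complex.re_sum] at h2
  exact h2

/-- the bound for one factor -/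
lemma factor (Q : ℕ) [NeZero Q] (B : Finset ℤ) (hB : B.Nonempty) (D : Finset (ℤ × ℤ))
    (hD : D ⊆ B ×ˢ B) (ξ : ZMod Q) :
    ‖∑ b ∈ B, ZMod.stdAddChar (ξ * (b : ZMod Q))‖ ≤ B.card * Real.exp (-(1 / 2) *
      ∑ x ∈ D, 1 / (B.card : ℝ) ^ 2 * (1 - cr Q (ξ * ((x.1 - x.2 : ℤ) : ZMod Q)))) := by
  have hc : (0 : ℝ) < B.card := by exact_mod_cast hB.card_pos
  set u := ∑ x ∈ D, 1 / (B.card : ℝ) ^ 2 * (1 - cr Q (ξ * ((x.1 - x.2 : ℤ) : ZMod Q))) with hu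
  have h1 := norm_sq_sum Q B ξ
  have h2 : ∑ x ∈ B ×ˢ B, cr Q (ξ * ((x.1 - x.2 : ℤ) : ZMod Q)) =
      (B.card : ℝ) ^ 2 - ∑ x ∈ B ×ˢ B, (1 - cr Q (ξ * ((x.1 - x.2 : ℤ) : ZMod Q))) := by
    rw [sum_sub_distrib, sum_const, card_product, nsmul_eq_mul]
    push_cast
    ring
  have h3 : ∑ x ∈ D, (1 - cr Q (ξ * ((x.1 - x.2 : ℤ) : ZMod Q))) ≤
      ∑ x ∈ B ×ˢ B, (1 - cr Q (ξ * ((x.1 - x.2 : ℤ) : ZMod Q))) :=
    sum_le_sum_of_subset_of_nonneg hD fun x _ _ => sub_nonneg.2 (cr_le_one Q _)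
  have h4 : u = (∑ x ∈ D, (1 - cr Q (ξ * ((x.1 - x.2 : ℤ) : ZMod Q)))) / (B.card : ℝ) ^ 2 := by
    rw [hu, ← mul_sum]
    ring
  have h5 : ‖∑ b ∈ B, ZMod.stdAddChar (ξ * (b : ZMod Q))‖ ^ 2 ≤ (B.card : ℝ) ^ 2 * (1 - u) := by
    rw [h1, h2, h4]
    have : (B.card : ℝ) ^ 2 * (1 - (∑ x ∈ D, (1 - cr Q (ξ * ((x.1 - x.2 : ℤ) : ZMod Q)))) /
        (B.card : ℝ) ^ 2) = (B.card : ℝ) ^ 2 -
        ∑ x ∈ D, (1 - cr Q (ξ * ((x.1 - x.2 : ℤ) : ZMod Q))) := by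
      field_simp
    rw [this]
    linarith
  have h6 : ‖∑ b ∈ B, ZMod.stdAddChar (ξ * (b : ZMod Q))‖ ^ 2 ≤
      ((B.card : ℝ) * Real.exp (-(1 / 2) * u)) ^ 2 := by
    refine h5.trans ?_
    rw [mul_pow, ← Real.exp_nat_mul]
    refine mul_le_mul_of_nonneg_left ?_ (by positivity)
    have := Real.add_one_le_exp (-u)
    refine le_trans (by linarith) (this.trans (le_of_eq ?_))
    congr 1
    push_cast
    ring
  exact le_of_sq_le_sq h6 (by positivity)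

lemma addChar_sum {ι R : Type*} [AddCommGroup R] (ψ : AddChar R ℂ) (s : Finset ι) (f : ι → R) :
    ψ (∑ i ∈ s, f i) = ∏ i ∈ s, ψ (f i) := by
  classical
  induction s using Finset.induction_on with
  | empty => simp
  | insert a s ha ih => rw [sum_insert ha, prod_insert ha, AddChar.map_add_eq_mul, ih]

/-- counting by characters -/
lemma count_le {ι : Type} [Fintype ι] [DecidableEq ι] (Q : ℕ) [NeZero Q] (B : ι → Finset ℤ) :
    (Q : ℝ) * (((Fintype.piFinset B).filter fun b => (Q : ℤ) ∣ ∑ i, b i).card : ℝ) ≤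
      ∑ ξ : ZMod Q, ∏ i, ‖∑ b ∈ B i, ZMod.stdAddChar (ξ * (b : ZMod Q))‖ := by
  have h1 : ((Q : ℂ) * (((Fintype.piFinset B).filter fun b => (Q : ℤ) ∣ ∑ i, b i).card : ℂ)) =
      ∑ ξ : ZMod Q, ∏ i, ∑ b ∈ B i, ZMod.stdAddChar (ξ * (b : ZMod Q)) := by
    have e1 : ∀ ξ : ZMod Q, ∏ i, ∑ b ∈ B i, ZMod.stdAddChar (ξ * (b : ZMod Q)) =
        ∑ b ∈ Fintype.piFinset B, ZMod.stdAddChar (ξ * ((∑ i, b i : ℤ) : ZMod Q)) := by
      intro ξ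
      rw [prod_univ_sum]
      refine sum_congr rfl fun b _ => ?_
      rw [← addChar_sum]
      congr 1
      push_cast
      rw [mul_sum]
    rw [sum_congr rfl fun ξ _ => e1 ξ, sum_comm]
    have e2 : ∀ b : ι → ℤ, ∑ ξ : ZMod Q, ZMod.stdAddChar (ξ * ((∑ i, b i : ℤ) : ZMod Q)) =
        if (Q : ℤ) ∣ ∑ i, b i then (Q : ℂ) else 0 := by
      intro b
      rw [AddChar.sum_mulShift _ (ZMod.isPrimitive_stdAddChar Q)]
      simp only [ZMod.intCast_zmod_eq_zero_iff_dvd, ZMod.card]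
      split_ifs <;> simp
    rw [sum_congr rfl fun b _ => e2 b, ← sum_filter, sum_const, nsmul_eq_mul, mul_comm]
  have h2 : (Q : ℝ) * (((Fintype.piFinset B).filter fun b => (Q : ℤ) ∣ ∑ i, b i).card : ℝ) =
      ‖∑ ξ : ZMod Q, ∏ i, ∑ b ∈ B i, ZMod.stdAddChar (ξ * (b : ZMod Q))‖ := by
    rw [← h1, norm_mul, Complex.norm_natCast, Complex.norm_natCast]
  rw [h2]
  refine (norm_sum_le _ _).trans (le_of_eq ?_)
  exact sum_congr rfl fun ξ _ => norm_prod _ _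

/-- **Sums of independent integers modulo a prime power.** -/
theorem lo {ι : Type} [Fintype ι] [DecidableEq ι] (p : ℕ) (hp : p.Prime) (t s : ℕ) (hts : t ≤ s)
    (B : ι → Finset ℤ) (hB : ∀ i, (B i).Nonempty) {L : ℝ} (hL : 0 < L)
    (hΛ : L ≤ ∑ i, (((B i ×ˢ B i).filter fun x => ¬ ((p ^ t : ℕ) : ℤ) ∣ x.1 - x.2).card : ℝ) /
      ((B i).card : ℝ) ^ 2) :
    (((Fintype.piFinset B).filter fun b => ((p ^ s : ℕ) : ℤ) ∣ ∑ i, b i).card : ℝ) ≤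
      (1 / (p : ℝ) ^ (s - t + 1) + 2 / Real.sqrt L) * ((Fintype.piFinset B).card : ℝ) := by
  set Q := p ^ s with hQ
  have : NeZero Q := ⟨(pow_pos hp.pos s).ne'⟩
  have hQr : (0 : ℝ) < Q := by exact_mod_cast pow_pos hp.pos s
  have hc : ∀ i, (0 : ℝ) < (B i).card := fun i => by exact_mod_cast (hB i).card_pos
  set D : ι → Finset (ℤ × ℤ) := fun i =>
    (B i ×ˢ B i).filter fun x => ¬ ((p ^ t : ℕ) : ℤ) ∣ x.1 - x.2 with hD
  set w : (Σ _ : ι, ℤ × ℤ) → ℝ := fun x => 1 / ((B x.1).card : ℝ) ^ 2 with hw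
  set T : Finset (Σ _ : ι, ℤ × ℤ) := univ.sigma D with hT
  set Λ : ℝ := ∑ x ∈ T, w x with hΛd
  have hΛ1 : Λ = ∑ i, ((D i).card : ℝ) / ((B i).card : ℝ) ^ 2 := by
    rw [hΛd, hT, Finset.sum_sigma]
    refine sum_congr rfl fun i _ => ?_
    have e0 : ∀ x ∈ D i, w ⟨i, x⟩ = 1 / ((B i).card : ℝ) ^ 2 := fun x _ => rfl
    rw [sum_congr rfl e0, sum_const, nsmul_eq_mul]
    ring
  have hLΛ : L ≤ Λ := by rw [hΛ1]; exact hΛ
  have hΛ0 : 0 < Λ := lt_of_lt_of_le hL hLΛ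
  have hw0 : ∀ x, 0 ≤ w x := fun x => by rw [hw]; positivity
  have h1 := count_le Q B
  have h2 : ∀ ξ : ZMod Q, ∏ i, ‖∑ b ∈ B i, ZMod.stdAddChar (ξ * (b : ZMod Q))‖ ≤
      (∏ i, ((B i).card : ℝ)) * ∑ x ∈ T, w x / Λ *
        Real.exp (-(Λ / 2) * (1 - cr Q (ξ * ((x.2.1 - x.2.2 : ℤ) : ZMod Q)))) := by
    intro ξ
    have e1 : ∏ i, ‖∑ b ∈ B i, ZMod.stdAddChar (ξ * (b : ZMod Q))‖ ≤
        ∏ i, ((B i).card * Real.exp (-(1 / 2) * ∑ x ∈ D i, 1 / ((B i).card : ℝ) ^ 2 *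
          (1 - cr Q (ξ * ((x.1 - x.2 : ℤ) : ZMod Q))))) :=
      prod_le_prod (fun _ _ => norm_nonneg _) fun i _ =>
        factor Q (B i) (hB i) (D i) (filter_subset _ _) ξ
    refine e1.trans ?_
    rw [prod_mul_distrib, ← Real.exp_sum]
    refine mul_le_mul_of_nonneg_left ?_ (prod_nonneg fun i _ => (hc i).le)
    have e2 : ∑ i, -(1 / 2) * ∑ x ∈ D i, 1 / ((B i).card : ℝ) ^ 2 *
          (1 - cr Q (ξ * ((x.1 - x.2 : ℤ) : ZMod Q))) =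
        ∑ x ∈ T, w x / Λ * (-(Λ / 2) * (1 - cr Q (ξ * ((x.2.1 - x.2.2 : ℤ) : ZMod Q)))) := by
      rw [hT, Finset.sum_sigma]
      refine sum_congr rfl fun i _ => ?_
      rw [mul_sum]
      refine sum_congr rfl fun x _ => ?_
      rw [hw]
      field_simp
    rw [e2]
    have e3 := convexOn_exp.map_sum_le (t := T) (w := fun x => w x / Λ)
      (p := fun x => -(Λ / 2) * (1 - cr Q (ξ * ((x.2.1 - x.2.2 : ℤ) : ZMod Q))))
      (fun x _ => div_nonneg (hw0 x) hΛ0.le) (by rw [← sum_div, ← hΛd, div_self hΛ0.ne'])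
      (fun x _ => Set.mem_univ _)
    simpa only [smul_eq_mul] using e3
  have h3 : ∑ ξ : ZMod Q, ∏ i, ‖∑ b ∈ B i, ZMod.stdAddChar (ξ * (b : ZMod Q))‖ ≤
      (∏ i, ((B i).card : ℝ)) * (Q * (1 / (p : ℝ) ^ (s - t + 1) + 2 / Real.sqrt Λ)) := by
    refine (sum_le_sum fun ξ _ => h2 ξ).trans ?_
    rw [← mul_sum, sum_comm]
    refine mul_le_mul_of_nonneg_left ?_ (prod_nonneg fun i _ => (hc i).le)
    have e1 : ∀ x ∈ T, ∑ ξ : ZMod Q, w x / Λ *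
        Real.exp (-(Λ / 2) * (1 - cr Q (ξ * ((x.2.1 - x.2.2 : ℤ) : ZMod Q)))) ≤
        w x / Λ * (Q * (1 / (p : ℝ) ^ (s - t + 1) + 2 / Real.sqrt Λ)) := by
      intro x hx
      rw [← mul_sum]
      refine mul_le_mul_of_nonneg_left ?_ (div_nonneg (hw0 x) hΛ0.le)
      have hx2 : ¬ ((p ^ t : ℕ) : ℤ) ∣ x.2.1 - x.2.2 := (mem_filter.1 (mem_sigma.1 hx).2).2
      exact single p hp t s hts hΛ0 _ hx2
    refine (sum_le_sum e1).trans (le_of_eq ?_)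
    rw [← sum_mul, ← sum_div, ← hΛd, div_self hΛ0.ne', one_mul]
  have h4 : (Q : ℝ) * (((Fintype.piFinset B).filter fun b => (Q : ℤ) ∣ ∑ i, b i).card : ℝ) ≤
      Q * ((1 / (p : ℝ) ^ (s - t + 1) + 2 / Real.sqrt Λ) * ((Fintype.piFinset B).card : ℝ)) := by
    refine (h1.trans h3).trans (le_of_eq ?_)
    rw [Fintype.card_piFinset]
    push_cast
    ring
  refine (le_of_mul_le_mul_left h4 hQr).trans ?_
  refine mul_le_mul_of_nonneg_right ?_ (by positivity)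
  have h5 : Real.sqrt L ≤ Real.sqrt Λ := Real.sqrt_le_sqrt hLΛ
  have h6 : 0 < Real.sqrt L := Real.sqrt_pos.2 hL
  have h7 := div_le_div_of_nonneg_left zero_le_two h6 h5
  linarith

end Pool.Agent.L5helper30.HC
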