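import Mathlib
import Pool.Agent.L5helper30.HC.Gen
import Pool.Agent.L5helper30.HC.LO3

/-!
# Product sets of unions of sums of many sets
-/

set_option autoImplicit false

namespace Pool.Agent.L5helper30.HC

open Finset Pool.Agent.Y359.PE Pool.Agent.R849.SV

/-- one sumset: few elements are divisible by a large power of a prime -/
lemma one_sumset {δ : ℝ} (hδ : 0 < δ) {L K m : ℕ} (hK : 2 / δ ≤ K) (hK2 : 2 ≤ K)
    (hL : 16 / δ ^ 2 ≤ L) {n : ℕ} (B : Fin n → Finset ℤ) (hB : ∀ i, (B i).Nonempty)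
    (h : ∀ q : ℕ, IsPrimePow q → m < q →
      (∃ b ∈ Fintype.piFinset B, (q : ℤ) ∣ ∑ i, b i) →
      (L : ℝ) ≤ ∑ i, (((B i ×ˢ B i).filter fun x => ¬ (q : ℤ) ∣ x.1 - x.2).card : ℝ) /
        ((B i).card : ℝ) ^ 2)
    (p : ℕ) (hp : p.Prime) (v : ℕ) (hv : (m + 1) * K + 1 ≤ p ^ v) :
    (((Fintype.piFinset B).filter fun b => ((p ^ v : ℕ) : ℤ) ∣ ∑ i, b i).card : ℝ) ≤
      δ * (Fintype.piFinset B).card := by
  classical
  set t := Nat.clog p (m + 2) with ht
  set u := (Nat.clog p K).pred with hu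
  have hp1 : 1 < p := hp.one_lt
  have ht1 : m + 2 ≤ p ^ t := Nat.le_pow_clog hp1 _
  have ht0 : t ≠ 0 := by
    intro h0
    rw [h0, pow_zero] at ht1
    omega
  have ht2 : p ^ (t - 1) < m + 2 := Nat.pow_pred_clog_lt_self hp1 (by omega)
  have hu2 : p ^ u < K := Nat.pow_pred_clog_lt_self hp1 (by omega)
  have hu1 : K ≤ p ^ (u + 1) := by
    refine (Nat.le_pow_clog hp1 K).trans (Nat.pow_le_pow_right hp.pos ?_)
    rw [hu, Nat.pred_eq_sub_one]
    omega
  set s := t + u with hs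
  have hsv : s ≤ v := by
    have h1 : p ^ (s - 1) < p ^ v := by
      have e1 : s - 1 = (t - 1) + u := by omega
      rw [e1, pow_add]
      have h2 : p ^ (t - 1) * p ^ u ≤ (m + 1) * K := Nat.mul_le_mul (by omega) hu2.le
      omega
    have h2 := (Nat.pow_lt_pow_iff_right hp1).1 h1
    omega
  have hsub : ((Fintype.piFinset B).filter fun b => ((p ^ v : ℕ) : ℤ) ∣ ∑ i, b i) ⊆
      (Fintype.piFinset B).filter fun b => ((p ^ s : ℕ) : ℤ) ∣ ∑ i, b i := by
    intro b hb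
    rw [mem_filter] at hb ⊢
    exact ⟨hb.1, dvd_trans (Int.natCast_dvd_natCast.2 (pow_dvd_pow p hsv)) hb.2⟩
  have hcard : (((Fintype.piFinset B).filter fun b => ((p ^ v : ℕ) : ℤ) ∣ ∑ i, b i).card : ℝ) ≤
      (((Fintype.piFinset B).filter fun b => ((p ^ s : ℕ) : ℤ) ∣ ∑ i, b i).card : ℝ) := by
    exact_mod_cast card_le_card hsub
  refine hcard.trans ?_
  by_cases hex : ∃ b ∈ Fintype.piFinset B, ((p ^ t : ℕ) : ℤ) ∣ ∑ i, b i
  · have h1 := h (p ^ t) (hp.isPrimePow.pow ht0) (by omega) hex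
    have hL0 : (0 : ℝ) < L := lt_of_lt_of_le (by positivity) hL
    have h2 := lo p hp t s (by omega) B hB hL0 h1
    refine h2.trans (mul_le_mul_of_nonneg_right ?_ (by positivity))
    have h3 : s - t + 1 = u + 1 := by omega
    rw [h3]
    have h4 : 1 / (p : ℝ) ^ (u + 1) ≤ δ / 2 := by
      have h5 : (K : ℝ) ≤ (p : ℝ) ^ (u + 1) := by exact_mod_cast hu1
      have h6 : 2 / δ ≤ (p : ℝ) ^ (u + 1) := hK.trans h5
      calc 1 / (p : ℝ) ^ (u + 1) ≤ 1 / (2 / δ) := one_div_le_one_div_of_le (by positivity) h6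
        _ = δ / 2 := by field_simp
    have h5 : 2 / Real.sqrt L ≤ δ / 2 := by
      have h6 : 4 / δ ≤ Real.sqrt L := by
        apply Real.le_sqrt_of_sq_le
        refine le_trans (le_of_eq ?_) hL
        rw [div_pow]
        norm_num
      calc 2 / Real.sqrt L ≤ 2 / (4 / δ) :=
            div_le_div_of_nonneg_left zero_le_two (by positivity) h6
        _ = δ / 2 := by
            field_simp
            norm_num
    linarith
  · push Not at hex
    have h1 : ((Fintype.piFinset B).filter fun b => ((p ^ s : ℕ) : ℤ) ∣ ∑ i, b i) = ∅ := by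
      rw [filter_eq_empty_iff]
      intro b hb hd
      exact hex b hb (dvd_trans (Int.natCast_dvd_natCast.2 (pow_dvd_pow p (by omega))) hd)
    rw [h1, card_empty, Nat.cast_zero]
    positivity

/-- **Unions of sums of many sets.** -/
theorem sums (k : ℕ) (hk : 1 ≤ k) (ε : ℝ) (hε : 0 < ε) (hε1 : ε ≤ 1) :
    ∃ L : ℕ, ∀ m : ℕ, ∃ c : ℝ, 0 < c ∧ ∀ (ι : Type) (J : Finset ι) (n : ι → ℕ)
      (B : (j : ι) → Fin (n j) → Finset ℤ), J.Nonempty → (∀ j ∈ J, ∀ i, (B j i).Nonempty) →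
      (∀ j ∈ J, ∀ q : ℕ, IsPrimePow q → m < q →
        (∃ b ∈ Fintype.piFinset (B j), (q : ℤ) ∣ ∑ i, b i) →
        (L : ℝ) ≤ ∑ i, (((B j i ×ˢ B j i).filter fun x => ¬ (q : ℤ) ∣ x.1 - x.2).card : ℝ) /
          ((B j i).card : ℝ) ^ 2) →
      c * ((∑ j ∈ J, ∏ i, ((B j i).card : ℝ)) ^ 2 /
        ((((J.sigma fun j => Fintype.piFinset (B j)) ×ˢ
          (J.sigma fun j => Fintype.piFinset (B j))).filter
            fun x => ∑ i, x.1.2 i = ∑ i, x.2.2 i).card : ℝ)) ^ ((k : ℝ) - ε) ≤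
      (((Fintype.piFinset fun _ : Fin k => J.biUnion fun j =>
        (Fintype.piFinset (B j)).image fun b => ∑ i, b i).image fun f => ∏ i, f i).card : ℝ) := by
  classical
  obtain ⟨δ, hδ, hgen⟩ := general k hk ε hε hε1
  set K : ℕ := ⌈2 / δ⌉₊ + 2 with hK
  have hK1 : 2 / δ ≤ K := by
    rw [hK]
    push_cast
    have := Nat.le_ceil (2 / δ)
    linarith
  refine ⟨⌈16 / δ ^ 2⌉₊, fun m => ?_⟩
  obtain ⟨c, hc, hgen⟩ := hgen ((m + 1) * K + 1)
  refine ⟨c, hc, fun ι J n B hJ hB hH => ?_⟩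
  set S : Finset (Σ j : ι, Fin (n j) → ℤ) := J.sigma fun j => Fintype.piFinset (B j) with hS
  set F : (Σ j : ι, Fin (n j) → ℤ) → ℤ := fun x => ∑ i, x.2 i with hF
  have hSne : S.Nonempty := by
    obtain ⟨j, hj⟩ := hJ
    have : (Fintype.piFinset (B j)).Nonempty := Fintype.piFinset_nonempty.2 (hB j hj)
    obtain ⟨b, hb⟩ := this
    exact ⟨⟨j, b⟩, mem_sigma.2 ⟨hj, hb⟩⟩
  have hScard : (S.card : ℝ) = ∑ j ∈ J, ∏ i, ((B j i).card : ℝ) := by
    rw [hS, card_sigma]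
    push_cast
    refine sum_congr rfl fun j _ => ?_
    rw [Fintype.card_piFinset]
    push_cast
    rfl
  have h1 := hgen _ S F hSne (fun p hp v hv => by
    have e1 : (S.filter fun s => ((p ^ v : ℕ) : ℤ) ∣ F s) =
        J.sigma fun j => (Fintype.piFinset (B j)).filter
          fun b => ((p ^ v : ℕ) : ℤ) ∣ ∑ i, b i := by
      ext ⟨j, b⟩
      rw [mem_filter, hS, mem_sigma, mem_sigma, mem_filter]
      tauto
    have e2 : ((S.filter fun s => ((p ^ v : ℕ) : ℤ) ∣ F s).card : ℝ) =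
        ∑ j ∈ J, (((Fintype.piFinset (B j)).filter
          fun b => ((p ^ v : ℕ) : ℤ) ∣ ∑ i, b i).card : ℝ) := by
      rw [e1, card_sigma]
      push_cast
      rfl
    have e3 : (S.card : ℝ) = ∑ j ∈ J, ((Fintype.piFinset (B j)).card : ℝ) := by
      rw [hS, card_sigma]
      push_cast
      rfl
    have e4 : ((S.filter fun s => ((p ^ v : ℕ) : ℤ) ∣ F s).card : ℝ) ≤ δ * S.card := by
      rw [e2, e3, mul_sum]
      exact sum_le_sum fun j hj => one_sumset hδ hK1 (by omega) (Nat.le_ceil _) (B j) (hB j hj)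
        (hH j hj) p hp v hv
    convert e4)
  have hco : coll S F = ((S ×ˢ S).filter fun x => ∑ i, x.1.2 i = ∑ i, x.2.2 i).card := by
    unfold coll
    congr
  rw [hco, hScard] at h1
  refine h1.trans (le_of_eq ?_)
  unfold pk
  have himg : S.image F = J.biUnion fun j =>
      (Fintype.piFinset (B j)).image fun b => ∑ i, b i := by
    ext x
    rw [mem_image, mem_biUnion]
    constructor
    · rintro ⟨⟨j, b⟩, hs, rfl⟩
      rw [hS, mem_sigma] at hs
      exact ⟨j, hs.1, mem_image_of_mem _ hs.2⟩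
    · rintro ⟨j, hj, hx⟩
      obtain ⟨b, hb, rfl⟩ := mem_image.1 hx
      exact ⟨⟨j, b⟩, mem_sigma.2 ⟨hj, hb⟩, rfl⟩
  congr 3
  convert congrArg (fun A : Finset ℤ => Fintype.piFinset fun _ : Fin k => A) himg

end Pool.Agent.L5helper30.HC
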